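import Pool.Agent.helper84.QI.Spec

set_option autoImplicit false

namespace Pool.Agent.QI

theorem CEN_top {G : Type} [Group G] {a b : G} (h : CE a b) :
    (Subgroup.closure ({a, b} : Set G) : Set G).Infinite := by
  rw [h.gen, Subgroup.coe_top]
  haveI := h.inf
  exact Set.infinite_univ

theorem CEN : CEN_stmt := by
  intro G _ a b h
  have hb : (Subgroup.centralizer ({b} : Set G) : Set G) ⊆ Bad a b := by
    intro c hc
    have h1 : c⁻¹ * b * c = b := by
      have h2 : b * c = c * b := Subgroup.mem_centralizer_iff.1 hc b rfl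
      rw [mul_assoc, h2, inv_mul_cancel_left]
    show (Subgroup.closure ({a, c⁻¹ * b * c} : Set G) : Set G).Infinite
    rw [h1]
    exact CEN_top h
  have ha : (Subgroup.centralizer ({a} : Set G) : Set G) ⊆ Bad a b := by
    intro c hc
    have h2 : a * c = c * a := Subgroup.mem_centralizer_iff.1 hc a rfl
    show (Subgroup.closure ({a, c⁻¹ * b * c} : Set G) : Set G).Infinite
    intro hfin
    apply CEN_top h
    have h3 : (Subgroup.closure ({a, c⁻¹ * b * c} : Set G)).map (MulAut.conj c).toMonoidHom =
        Subgroup.closure ({a, b} : Set G) := by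
      rw [MonoidHom.map_closure, Set.image_pair]
      have h4 : (MulAut.conj c).toMonoidHom a = a := by
        show c * a * c⁻¹ = a
        rw [← h2, mul_inv_cancel_right]
      have h5 : (MulAut.conj c).toMonoidHom (c⁻¹ * b * c) = b := by
        show c * (c⁻¹ * b * c) * c⁻¹ = b
        group
      rw [h4, h5]
    rw [← h3, Subgroup.coe_map]
    exact hfin.image _
  have hz : ∀ x : G, (Subgroup.zpowers x : Set G) ⊆ (Subgroup.centralizer ({x} : Set G) : Set G) := by
    rintro x y ⟨k, rfl⟩
    apply Subgroup.mem_centralizer_iff.2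
    rintro z rfl
    exact (Commute.zpow_right (Commute.refl z) k)
  have hfa := h.fin.subset ha
  have hfb := h.fin.subset hb
  exact ⟨hfa, hfb, finite_zpowers.1 (hfa.subset (hz a)), finite_zpowers.1 (hfb.subset (hz b))⟩

end Pool.Agent.QI
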